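import Pool.Agent.Lib.MP_94b6b1_an.Oper

set_option autoImplicit false

namespace Pool.Agent.Results.MP_94b6b1_an.NoHeat

open Pool.Agent.Lib.MP_94b6b1_an

/-- There is a countably infinite group with the Haagerup property and without the heat property. -/
theorem result :
    ∃ (G : Type) (_ : Group G), Countable G ∧ Infinite G ∧ Haagerup G ∧ ¬ Heat G :=
  ⟨Lamp, inferInstance, inferInstance, inferInstance, haagerup_Lamp, not_heat⟩

end Pool.Agent.Results.MP_94b6b1_an.NoHeat
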