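import Pool.Agent.Lib.MP_94b6b1_an.Thom

set_option autoImplicit false

namespace Pool.Agent.Results.MP_94b6b1_an.Thompson

open Pool.Agent.Lib.MP_94b6b1_an

/-- None of Thompson's groups `F`, `T`, `V` has the heat property. -/
theorem result : ¬ Heat ThompsonF ∧ ¬ Heat ThompsonT ∧ ¬ Heat ThompsonV :=
  ZL.thompson

end Pool.Agent.Results.MP_94b6b1_an.Thompson
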